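import Mathlib
import Pool.Agent.H97R2.BP.Defs
import Pool.Agent.H97R2.BP.Defs2

open scoped ComplexOrder InnerProductSpace ComplexConjugate TensorProduct
open Finset H759R2.Kad H710R2.DP

noncomputable section

namespace H97R2.BP

namespace ZZ959

variable {H : Type} [NormedAddCommGroup H] [InnerProductSpace ℂ H] [CompleteSpace H]

def vf (M : VonNeumannAlgebra H) (ξ : H) : M.toStarSubalgebra →ₗ[ℂ] ℂ where
  toFun a := ⟪ξ, (a : H →L[ℂ] H) ξ⟫_ℂ
  map_add' a b := by
    show ⟪ξ, (a : H →L[ℂ] H) ξ + (b : H →L[ℂ] H) ξ⟫_ℂ = _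
    rw [inner_add_right]
  map_smul' c a := by
    show ⟪ξ, c • (a : H →L[ℂ] H) ξ⟫_ℂ = _
    rw [inner_smul_right]
    rfl

theorem inn_star (a : H →L[ℂ] H) (x y : H) : ⟪x, star a y⟫_ℂ = ⟪a x, y⟫_ℂ := by
  rw [ContinuousLinearMap.star_eq_adjoint, ContinuousLinearMap.adjoint_inner_right]

theorem inn_sq (a : H →L[ℂ] H) (x : H) : ⟪x, star a (a x)⟫_ℂ = ((‖a x‖ ^ 2 : ℝ) : ℂ) := by
  rw [inn_star, inner_self_eq_norm_sq_to_K]
  simp

theorem inn_sq' (a : H →L[ℂ] H) (x : H) : ⟪x, a (star a x)⟫_ℂ = ((‖star a x‖ ^ 2 : ℝ) : ℂ) := by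
  have := inn_sq (star a) x
  rwa [star_star] at this

theorem vf_sq (M : VonNeumannAlgebra H) (ξ : H) (a : M.toStarSubalgebra) :
    vf M ξ (star a * a) = ((‖(a : H →L[ℂ] H) ξ‖ ^ 2 : ℝ) : ℂ) := inn_sq _ _

theorem vf_sq' (M : VonNeumannAlgebra H) (ξ : H) (a : M.toStarSubalgebra) :
    vf M ξ (a * star a) = ((‖star (a : H →L[ℂ] H) ξ‖ ^ 2 : ℝ) : ℂ) := inn_sq' _ _

theorem sq_est {x y δ ε R : ℝ} (hx : 0 ≤ x) (hy : 0 ≤ y) (hδ : 0 ≤ δ) (h : x ≤ y + δ)
    (hR : x ≤ R) (hε : 2 * R * δ ≤ ε) : x ^ 2 - ε ≤ y ^ 2 := by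
  have h1 : x * δ ≤ R * δ := mul_le_mul_of_nonneg_right hR hδ
  by_cases hc : δ ≤ x
  · nlinarith
  · push Not at hc
    nlinarith

theorem vf_nrm (h1 : C_chain.{0}) (M : VonNeumannAlgebra H) (ξ : H) : Nrm (vf M ξ) := by
  constructor
  · intro a
    rw [vf_sq]
    have h : (0 : ℝ) ≤ ‖(a : H →L[ℂ] H) ξ‖ ^ 2 := sq_nonneg _
    exact_mod_cast h
  · intro w C V hC hV ε hε
    set η : H := star (w : H →L[ℂ] H) ξ with hη
    set R : ℝ := ‖(V : H →L[ℂ] H) η‖ + ‖star (V : H →L[ℂ] H) η‖ + 1 with hR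
    have hR0 : 0 < R := by positivity
    obtain ⟨v, hv, h⟩ := (h1 H M C hC).2 V hV 1 (fun _ => η) (ε / (2 * R)) (by positivity)
    obtain ⟨e1, e2⟩ := h 0
    have key : ∀ u : M.toStarSubalgebra, vf M ξ (w * (star u * u) * star w) =
        ((‖(u : H →L[ℂ] H) η‖ ^ 2 : ℝ) : ℂ) := by
      intro u
      have : w * (star u * u) * star w = star (u * star w) * (u * star w) := by
        simp [mul_assoc]
      rw [this, vf_sq]
      rfl
    have key2 : ∀ u : M.toStarSubalgebra, vf M ξ (w * (u * star u) * star w) =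
        ((‖star (u : H →L[ℂ] H) η‖ ^ 2 : ℝ) : ℂ) := by
      intro u
      have := key (star u)
      rw [star_star] at this
      exact this
    refine ⟨v, hv, ?_, ?_⟩
    · rw [key, key, Complex.ofReal_re, Complex.ofReal_re]
      refine sq_est (norm_nonneg _) (norm_nonneg _) (by positivity : 0 ≤ ε / (2 * R)) ?_
        (by rw [hR]; linarith [norm_nonneg (star (V : H →L[ℂ] H) η)] :
          ‖(V : H →L[ℂ] H) η‖ ≤ R) (le_of_eq ?_)
      · have := norm_sub_norm_le ((V : H →L[ℂ] H) η) ((v : H →L[ℂ] H) η)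
        linarith
      · field_simp
    · rw [key2, key2, Complex.ofReal_re, Complex.ofReal_re]
      refine sq_est (norm_nonneg _) (norm_nonneg _) (by positivity : 0 ≤ ε / (2 * R)) ?_
        (by rw [hR]; linarith [norm_nonneg ((V : H →L[ℂ] H) η)] :
          ‖star (V : H →L[ℂ] H) η‖ ≤ R) (le_of_eq ?_)
      · have := norm_sub_norm_le (star (V : H →L[ℂ] H) η) (star (v : H →L[ℂ] H) η)
        linarith
      · field_simp

end ZZ959

open ZZ959 in
theorem bp_near (h0 : C_wst.{0}) (h1 : C_chain.{0}) (h2 : W_faith.{0}) (h3 : W_sub.{0}) (h4 : W_near.{0})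
    (h5 : W_all.{0}) (h6 : W_cop.{0}) : Z_near := by
  intro H _ _ _ M z hz hz0 hfin
  have hW := h0 H M
  -- a vector
  obtain ⟨ξ, hξ⟩ : ∃ ξ : H, (z : H →L[ℂ] H) ξ ≠ 0 := by
    by_contra hcon
    push Not at hcon
    apply hz0
    apply Subtype.ext
    ext ζ
    rw [hcon ζ]
    rfl
  have hN := vf_nrm h1 M ξ
  have hsz : star z = z := hz.1.1
  have hzz : z * z = z := hz.1.2
  have hφz : vf M ξ z ≠ 0 := by
    have : z = star z * z := by rw [hsz, hzz]
    rw [this, vf_sq]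
    have h : ‖(z : H →L[ℂ] H) ξ‖ ^ 2 ≠ 0 := pow_ne_zero 2 (norm_ne_zero_iff.2 hξ)
    exact_mod_cast h
  obtain ⟨s, hs, hzs, hs0, hsf⟩ := h2 _ hW (vf M ξ) hN z hz.1 hφz
  have hsfin : Fnt s := h3 _ z s hz.1 hs hzs hfin
  obtain ⟨p, hp, hsp, hp0, hpn⟩ := h4 _ hW (vf M ξ) hN s hs hs0 hsfin hsf 1 one_pos
  have hall := h5 _ hW (vf M ξ) hN p hp 1 zero_le_one hpn
  have hzp : z * p = p := by rw [← hsp, ← mul_assoc, hzs]
  obtain ⟨g, hg, hzg, hg0, n, w, hw, hwg⟩ := h6 _ hW z hz hfin p hp hzp hp0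
  have hgs : star g = g := hg.1.1
  have hgg : g * g = g := hg.1.2
  -- the sum formula
  have hsum : ∀ ζ : H, ∑ j, ‖star (w j : H →L[ℂ] H) ζ‖ ^ 2 = ‖(g : H →L[ℂ] H) ζ‖ ^ 2 := by
    intro ζ
    have e1 : vf M ζ g = ((‖(g : H →L[ℂ] H) ζ‖ ^ 2 : ℝ) : ℂ) := by
      have : g = star g * g := by rw [hgs, hgg]
      conv_lhs => rw [this]
      rw [vf_sq]
    have e2 : vf M ζ g = ((∑ j, ‖star (w j : H →L[ℂ] H) ζ‖ ^ 2 : ℝ) : ℂ) := by
      rw [← hwg, map_sum, Complex.ofReal_sum]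
      refine Finset.sum_congr rfl fun j _ => ?_
      rw [vf_sq']
    exact_mod_cast e2.symm.trans e1
  have hwg1 : ∀ j, star (w j) * g = star (w j) := by
    intro j
    apply Subtype.ext
    ext ζ
    have h := hsum (ζ - (g : H →L[ℂ] H) ζ)
    have e : (g : H →L[ℂ] H) (ζ - (g : H →L[ℂ] H) ζ) = 0 := by
      have h3 : (g : H →L[ℂ] H) ((g : H →L[ℂ] H) ζ) = (g : H →L[ℂ] H) ζ := by
        have := congrArg (fun a : M.toStarSubalgebra => (a : H →L[ℂ] H) ζ) hgg
        exact this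
      rw [map_sub, h3, sub_self]
    rw [e, norm_zero, zero_pow two_ne_zero] at h
    have h4 := (Finset.sum_eq_zero_iff_of_nonneg (fun j _ => sq_nonneg _)).1 h j (Finset.mem_univ j)
    have h5 : star (w j : H →L[ℂ] H) (ζ - (g : H →L[ℂ] H) ζ) = 0 := by
      rw [← norm_eq_zero]
      exact pow_eq_zero_iff two_ne_zero |>.1 h4
    rw [map_sub, sub_eq_zero] at h5
    exact h5.symm
  have hgw : ∀ j, g * w j = w j := by
    intro j
    have := congrArg star (hwg1 j)
    rwa [star_mul, star_star, hgs] at this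
  refine ⟨n, fun j => (w j : H →L[ℂ] H) ξ, ?_, ?_, ?_⟩
  · intro j
    have e : z * w j = w j := by rw [← hgw j, ← mul_assoc, hzg]
    exact congrArg (fun a : M.toStarSubalgebra => (a : H →L[ℂ] H) ξ) e
  · by_contra hcon
    push Not at hcon
    apply hg0
    rw [← hwg]
    refine Finset.sum_eq_zero fun j _ => ?_
    have hPI : w j * star (w j) * w j = w j := (hw j).1
    have he : Prj (star (w j) * w j) := by
      refine ⟨by simp, ?_⟩
      calc star (w j) * w j * (star (w j) * w j) = star (w j) * (w j * star (w j) * w j) := by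
            simp only [mul_assoc]
        _ = star (w j) * w j := by rw [hPI]
    have hpw : p * star (w j) = star (w j) := by
      have := congrArg star (hw j).2
      rwa [star_mul, hp.1] at this
    have hse : s * (star (w j) * w j) = star (w j) * w j := by
      rw [← hpw, ← mul_assoc, ← mul_assoc, hsp]
    have h0 : vf M ξ (star (w j) * w j) = 0 := by
      rw [vf_sq, hcon j]
      simp
    have h1 := hsf _ he hse h0
    rw [← hPI, mul_assoc (w j), h1]
    simp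
  · intro x hx
    let X : M.toStarSubalgebra := ⟨x, hx⟩
    have hpw : ∀ j, p * star (w j) = star (w j) := by
      intro j
      have := congrArg star (hw j).2
      rwa [star_mul, hp.1] at this
    have hjk : ∀ j k, ‖star (w k : H →L[ℂ] H) (star x ((w j : H →L[ℂ] H) ξ))‖ ^ 2 ≤
        2 * ‖star (w j : H →L[ℂ] H) (x ((w k : H →L[ℂ] H) ξ))‖ ^ 2 := by
      intro j k
      have h := hall (star (w j) * X * w k)
        (by rw [← mul_assoc, ← mul_assoc, hpw]) (by rw [mul_assoc, (hw k).2])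
      rw [vf_sq', vf_sq, Complex.ofReal_re, Complex.ofReal_re] at h
      have e1 : star ((star (w j) * X * w k : M.toStarSubalgebra) : H →L[ℂ] H) ξ =
          star (w k : H →L[ℂ] H) (star x ((w j : H →L[ℂ] H) ξ)) := by
        have : star (star (w j) * X * w k) = star (w k) * (star X * w j) := by
          simp [mul_assoc]
        exact congrArg (fun a : M.toStarSubalgebra => (a : H →L[ℂ] H) ξ) this
      have e2 : ((star (w j) * X * w k : M.toStarSubalgebra) : H →L[ℂ] H) ξ =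
          star (w j : H →L[ℂ] H) (x ((w k : H →L[ℂ] H) ξ)) := rfl
      rw [e1, e2] at h
      linarith
    have hg1 : ∀ (Y : M.toStarSubalgebra) (j : Fin n),
        (g : H →L[ℂ] H) ((Y : H →L[ℂ] H) ((w j : H →L[ℂ] H) ξ)) =
          (Y : H →L[ℂ] H) ((w j : H →L[ℂ] H) ξ) := by
      intro Y j
      have : g * (Y * w j) = Y * w j := by
        rw [← mul_assoc, hg.2 Y, mul_assoc, hgw]
      exact congrArg (fun a : M.toStarSubalgebra => (a : H →L[ℂ] H) ξ) this
    calc ∑ j, ‖star x ((w j : H →L[ℂ] H) ξ)‖ ^ 2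
        = ∑ j, ∑ k, ‖star (w k : H →L[ℂ] H) (star x ((w j : H →L[ℂ] H) ξ))‖ ^ 2 := by
          refine Finset.sum_congr rfl fun j _ => ?_
          rw [hsum]
          have := hg1 (star X) j
          rw [show (g : H →L[ℂ] H) (star x ((w j : H →L[ℂ] H) ξ)) = star x ((w j : H →L[ℂ] H) ξ)
            from this]
      _ ≤ ∑ j, ∑ k, 2 * ‖star (w j : H →L[ℂ] H) (x ((w k : H →L[ℂ] H) ξ))‖ ^ 2 :=
          Finset.sum_le_sum fun j _ => Finset.sum_le_sum fun k _ => hjk j k
      _ = 2 * ∑ k, ∑ j, ‖star (w j : H →L[ℂ] H) (x ((w k : H →L[ℂ] H) ξ))‖ ^ 2 := by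
          rw [Finset.sum_comm, Finset.mul_sum]
          refine Finset.sum_congr rfl fun k _ => ?_
          rw [Finset.mul_sum]
      _ = 2 * ∑ k, ‖x ((w k : H →L[ℂ] H) ξ)‖ ^ 2 := by
          congr 1
          refine Finset.sum_congr rfl fun k _ => ?_
          rw [hsum]
          have := hg1 X k
          rw [show (g : H →L[ℂ] H) (x ((w k : H →L[ℂ] H) ξ)) = x ((w k : H →L[ℂ] H) ξ)
            from this]

end H97R2.BP
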